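import Pool.Agent.H927.MG.SGoals

/-!
# Smoothness of the explicit ring over `R` (project MG of helper927, by helper154)
-/

set_option autoImplicit false

open Polynomial

namespace Pool.Agent.H154.MG927

open Pool.Agent.H927.MG

section pres

variable {R : Type} [CommRing R]

/-- a polynomial in the first variable -/
noncomputable def pl (c : R[X]) : MvPolynomial (Fin 3) R := Polynomial.aeval (MvPolynomial.X 0) c

lemma pderiv_pl (i : Fin 3) (c : R[X]) :
    MvPolynomial.pderiv i (pl c) = if i = 0 then pl (derivative c) else 0 := by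
  unfold pl
  rw [Derivation.map_aeval, MvPolynomial.pderiv_X]
  by_cases h : i = 0
  · subst h
    simp
  · rw [if_neg h, Pi.single_eq_of_ne (fun h' => h h'.symm), smul_zero]

lemma pl_mul (a b : R[X]) : pl (a * b) = pl a * pl b := map_mul _ _ _

/-- the relations -/
noncomputable def rel (d : Dat R[X]) : Fin 2 → MvPolynomial (Fin 3) R :=
  ![MvPolynomial.X 1 ^ 2 - pl d.f, MvPolynomial.X 2 ^ 2 - pl d.l * (pl d.V + MvPolynomial.X 1)]

/-- the quotient ring -/
abbrev QR (d : Dat R[X]) : Type := MvPolynomial (Fin 3) R ⧸ Ideal.span (Set.range (rel d))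

/-- the quotient map -/
noncomputable abbrev mk (d : Dat R[X]) : MvPolynomial (Fin 3) R →+* QR d :=
  Ideal.Quotient.mk _

/-- the minor of the Jacobian matrix -/
noncomputable def minor (d : Dat R[X]) (a b : Fin 3) : MvPolynomial (Fin 3) R :=
  MvPolynomial.pderiv a (rel d 0) * MvPolynomial.pderiv b (rel d 1) -
    MvPolynomial.pderiv a (rel d 1) * MvPolynomial.pderiv b (rel d 0)

lemma smooth_Q (d : Dat R[X]) (a b : Fin 3) (hab : a ≠ b) (g : QR d) (hg : mk d (minor d a b) ∣ g) :
    ((algebraMap (QR d) (Localization.Away g)).comp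
      (algebraMap R (QR d))).IsStandardSmoothOfRelativeDimension 1 := by
  have hinj : Function.Injective ![a, b] := by
    intro i j hij
    fin_cases i <;> fin_cases j <;> simp_all
  let P : Algebra.PreSubmersivePresentation R (QR d) (Fin 3) (Fin 2) :=
    Algebra.PreSubmersivePresentation.naive (v := rel d) ![a, b] hinj
  have hjac : P.jacobian = mk d (minor d a b) := by
    rw [Algebra.PreSubmersivePresentation.jacobian_eq_jacobiMatrix_det, Matrix.det_fin_two]
    simp only [P, Algebra.PreSubmersivePresentation.jacobiMatrix_naive]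
    rfl
  let L : Algebra.SubmersivePresentation (QR d) (Localization.Away g) Unit Unit :=
    Algebra.SubmersivePresentation.localizationAway (Localization.Away g) g
  let P' : Algebra.SubmersivePresentation R (Localization.Away g) (Unit ⊕ Fin 3) (Unit ⊕ Fin 2) :=
    { L.toPreSubmersivePresentation.comp P with
      jacobian_isUnit := by
        rw [Algebra.PreSubmersivePresentation.comp_jacobian_eq_jacobian_smul_jacobian,
          Algebra.smul_def, IsUnit.mul_iff]
        refine ⟨?_, L.jacobian_isUnit⟩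
        rw [hjac]
        have h1 : IsUnit (algebraMap (QR d) (Localization.Away g) g) :=
          IsLocalization.Away.algebraMap_isUnit g
        obtain ⟨c, hc⟩ := hg
        rw [hc, map_mul] at h1
        rw [hc]
        exact isUnit_of_mul_isUnit_left h1 }
  have h2 : Algebra.IsStandardSmoothOfRelativeDimension 1 R (Localization.Away g) := by
    refine P'.isStandardSmoothOfRelativeDimension ?_
    have h3 := Algebra.PreSubmersivePresentation.dimension_comp_eq_dimension_add_dimension
      L.toPreSubmersivePresentation P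
    have h4 : L.dimension = 0 := Algebra.Presentation.localizationAway_dimension_zero g
    have h5 : P.dimension = 1 := by
      simp [Algebra.Presentation.dimension]
    have h6 : P'.dimension = L.dimension + P.dimension := h3
    rw [h6, h4, h5]
  rw [← IsScalarTower.algebraMap_eq, RingHom.isStandardSmoothOfRelativeDimension_algebraMap]
  exact h2

end pres

section iso

variable {R : Type} [CommRing R] (d : Dat R[X])

lemma ringHom_ext_pl {S : Type} [CommRing S] {φ ψ : QR d →+* S}
    (hC : ∀ r : R, φ (mk d (MvPolynomial.C r)) = ψ (mk d (MvPolynomial.C r)))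
    (hX : ∀ i, φ (mk d (MvPolynomial.X i)) = ψ (mk d (MvPolynomial.X i))) : φ = ψ := by
  apply Ideal.Quotient.ringHom_ext
  apply MvPolynomial.ringHom_ext
  · exact hC
  · exact hX

/-- the polynomials in the quotient ring -/
noncomputable def eQ : R[X] →+* QR d := (mk d).comp
  (Polynomial.aeval (MvPolynomial.X 0 : MvPolynomial (Fin 3) R)).toRingHom

lemma eQ_apply (c : R[X]) : eQ d c = mk d (pl c) := rfl

lemma Q_rel0 : mk d (MvPolynomial.X 1) ^ 2 = eQ d d.f := by
  have h : mk d (rel d 0) = 0 := Ideal.Quotient.eq_zero_iff_mem.2 (Ideal.subset_span ⟨0, rfl⟩)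
  have h2 : rel d 0 = MvPolynomial.X 1 ^ 2 - pl d.f := rfl
  rw [h2, map_sub, map_pow, sub_eq_zero] at h
  exact h

lemma Q_rel1 : mk d (MvPolynomial.X 2) ^ 2 = eQ d d.l * (eQ d d.V + mk d (MvPolynomial.X 1)) := by
  have h : mk d (rel d 1) = 0 := Ideal.Quotient.eq_zero_iff_mem.2 (Ideal.subset_span ⟨1, rfl⟩)
  have h2 : rel d 1 = MvPolynomial.X 2 ^ 2 - pl d.l * (pl d.V + MvPolynomial.X 1) := rfl
  rw [h2, map_sub, map_pow, map_mul, map_add, sub_eq_zero] at h
  exact h

/-- the evaluation at `X`, `v`, `W0` -/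
noncomputable def ev3 : MvPolynomial (Fin 3) R →+* BB d :=
  MvPolynomial.eval₂Hom (sc d) ![xx d, BB.v d, BB.W0 d]

lemma ev3_X (i : Fin 3) : ev3 d (MvPolynomial.X i) = ![xx d, BB.v d, BB.W0 d] i := by
  unfold ev3
  rw [MvPolynomial.coe_eval₂Hom, MvPolynomial.eval₂_X]

lemma ev3_C (r : R) : ev3 d (MvPolynomial.C r) = sc d r := by
  unfold ev3
  rw [MvPolynomial.coe_eval₂Hom, MvPolynomial.eval₂_C]

lemma ev3_pl (c : R[X]) : ev3 d (pl c) = BB.of d c := by
  have h : (ev3 d).comp (Polynomial.aeval (MvPolynomial.X 0 : MvPolynomial (Fin 3) R)).toRingHom =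
      BB.of d := by
    apply Polynomial.ringHom_ext
    · intro r
      show ev3 d (Polynomial.aeval (MvPolynomial.X 0 : MvPolynomial (Fin 3) R) (C r)) = _
      rw [Polynomial.aeval_C, MvPolynomial.algebraMap_eq, ev3_C]
      rfl
    · show ev3 d (Polynomial.aeval (MvPolynomial.X 0 : MvPolynomial (Fin 3) R) X) = _
      rw [Polynomial.aeval_X, ev3_X]
      rfl
  exact congr($h c)

lemma ev3_rel (i : Fin 2) : ev3 d (rel d i) = 0 := by
  fin_cases i
  · show ev3 d (MvPolynomial.X 1 ^ 2 - pl d.f) = 0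
    rw [map_sub, map_pow, ev3_X, ev3_pl, sub_eq_zero, sq]
    exact BB.v_mul_v
  · show ev3 d (MvPolynomial.X 2 ^ 2 - pl d.l * (pl d.V + MvPolynomial.X 1)) = 0
    rw [map_sub, map_pow, map_mul, map_add, ev3_X, ev3_X, ev3_pl, ev3_pl, sub_eq_zero, sq]
    exact BB.W0_mul_W0

/-- the map to the ring `BB d` -/
noncomputable def psi : QR d →+* BB d :=
  Ideal.Quotient.lift _ (ev3 d) (by
    intro x hx
    have h : Ideal.span (Set.range (rel d)) ≤ RingHom.ker (ev3 d) := by
      rw [Ideal.span_le]
      rintro _ ⟨i, rfl⟩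
      exact ev3_rel d i
    exact h hx)

lemma psi_mk (x : MvPolynomial (Fin 3) R) : psi d (mk d x) = ev3 d x := rfl

lemma psi_eQ (c : R[X]) : psi d (eQ d c) = BB.of d c := by
  rw [eQ_apply, psi_mk, ev3_pl]

/-- abstract isomorphism of localizations -/
theorem exists_equiv {A B : Type} [CommRing A] [CommRing B] (ψ : A →+* B) (g : A)
    (φ : B →+* Localization.Away g)
    (h1 : ∀ a, φ (ψ a) = algebraMap A (Localization.Away g) a)
    (h2 : ∀ b : B, ∀ θ : Localization.Away g →+* Localization.Away (ψ g),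
      (∀ a, θ (algebraMap A (Localization.Away g) a) =
        algebraMap B (Localization.Away (ψ g)) (ψ a)) →
      θ (φ b) = algebraMap B (Localization.Away (ψ g)) b) :
    ∃ e : Localization.Away g ≃+* Localization.Away (ψ g), ∀ a,
      e (algebraMap A (Localization.Away g) a) = algebraMap B (Localization.Away (ψ g)) (ψ a) := by
  have hu1 : IsUnit (((algebraMap B (Localization.Away (ψ g))).comp ψ) g) :=
    IsLocalization.Away.algebraMap_isUnit (ψ g)
  have hu2 : IsUnit (φ (ψ g)) := by
    rw [h1]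
    exact IsLocalization.Away.algebraMap_isUnit g
  let θ : Localization.Away g →+* Localization.Away (ψ g) :=
    IsLocalization.Away.lift g hu1
  let φ' : Localization.Away (ψ g) →+* Localization.Away g :=
    IsLocalization.Away.lift (ψ g) hu2
  have hθ : ∀ a, θ (algebraMap A (Localization.Away g) a) =
      algebraMap B (Localization.Away (ψ g)) (ψ a) := fun a => IsLocalization.Away.lift_eq g hu1 a
  have hφ' : ∀ b, φ' (algebraMap B (Localization.Away (ψ g)) b) = φ b :=
    fun b => IsLocalization.Away.lift_eq (ψ g) hu2 b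
  refine ⟨RingEquiv.ofRingHom θ φ' ?_ ?_, fun a => hθ a⟩
  · apply IsLocalization.ringHom_ext (Submonoid.powers (ψ g))
    ext b
    rw [RingHom.comp_apply, RingHom.comp_apply, RingHom.comp_apply, RingHom.id_apply, hφ']
    exact h2 b θ hθ
  · apply IsLocalization.ringHom_ext (Submonoid.powers g)
    ext a
    rw [RingHom.comp_apply, RingHom.comp_apply, RingHom.comp_apply, RingHom.id_apply, hθ, hφ', h1]

/-- the two charts: `g0` is `V + v` or `l T` -/
lemma exists_phi (g0 : QR d) (hg0 : g0 = eQ d d.V + mk d (MvPolynomial.X 1) ∨ g0 = eQ d (d.l * d.T))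
    (g : QR d) (hg : g0 ∣ g) :
    ∃ e : Localization.Away g ≃+* Localization.Away (psi d g), ∀ a,
      e (algebraMap (QR d) (Localization.Away g) a) =
        algebraMap (BB d) (Localization.Away (psi d g)) (psi d a) := by
  set j : QR d →+* Localization.Away g := algebraMap (QR d) (Localization.Away g) with hj
  have hunit : IsUnit (j g0) := by
    have h1 : IsUnit (j g) := IsLocalization.Away.algebraMap_isUnit g
    obtain ⟨c, hc⟩ := hg
    have h2 : j g = j g0 * j c := by rw [← map_mul, ← hc]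
    rw [h2] at h1
    exact isUnit_of_mul_isUnit_left h1
  obtain ⟨u, hu⟩ := hunit.exists_right_inv
  set E : R[X] →+* Localization.Away g := j.comp (eQ d) with hE
  set y : Localization.Away g := j (mk d (MvPolynomial.X 1)) with hy
  set w : Localization.Away g := j (mk d (MvPolynomial.X 2)) with hw
  have hff : E d.f = E d.V ^ 2 - E d.l * E d.m * E d.T ^ 2 := by
    simp only [Dat.f, map_sub, map_mul, map_pow]
  have hy2 : y ^ 2 = E d.V ^ 2 - E d.l * E d.m * E d.T ^ 2 := by
    rw [← hff, hy, ← map_pow, Q_rel0]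
    rfl
  have hw2 : w ^ 2 = E d.l * (E d.V + y) := by
    rw [hw, ← map_pow, Q_rel1, map_mul, map_add]
    rfl
  -- the element `z`
  obtain ⟨z, hz3, hz4, hz5, hz6⟩ : ∃ z : Localization.Away g, z ^ 2 = E d.m * (E d.V - y) ∧
      w * z = E d.l * E d.m * E d.T ∧ E d.l * E d.T * z = (E d.V - y) * w ∧
      (E d.V + y) * z = E d.m * E d.T * w := by
    rcases hg0 with h0 | h0
    · have hu' : (E d.V + y) * u = 1 := by
        rw [h0, map_add] at hu
        exact hu
      refine ⟨E d.m * E d.T * w * u, ?_, ?_, ?_, ?_⟩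
      · calc (E d.m * E d.T * w * u) ^ 2 = E d.m ^ 2 * E d.T ^ 2 * w ^ 2 * u ^ 2 := by ring
          _ = E d.m * (E d.l * E d.m * E d.T ^ 2) * u * ((E d.V + y) * u) := by rw [hw2]; ring
          _ = E d.m * (E d.V ^ 2 - y ^ 2) * u := by rw [hu', hy2]; ring
          _ = E d.m * (E d.V - y) * ((E d.V + y) * u) := by ring
          _ = _ := by rw [hu', mul_one]
      · calc w * (E d.m * E d.T * w * u) = E d.m * E d.T * w ^ 2 * u := by ring
          _ = E d.l * E d.m * E d.T * ((E d.V + y) * u) := by rw [hw2]; ring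
          _ = _ := by rw [hu', mul_one]
      · calc E d.l * E d.T * (E d.m * E d.T * w * u) = (E d.l * E d.m * E d.T ^ 2) * w * u := by ring
          _ = (E d.V ^ 2 - y ^ 2) * w * u := by rw [hy2]; ring
          _ = (E d.V - y) * w * ((E d.V + y) * u) := by ring
          _ = _ := by rw [hu', mul_one]
      · calc (E d.V + y) * (E d.m * E d.T * w * u) = E d.m * E d.T * w * ((E d.V + y) * u) := by ring
          _ = _ := by rw [hu', mul_one]
    · have hu' : E d.l * E d.T * u = 1 := by
        rw [h0] at hu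
        rw [← map_mul]
        exact hu
      refine ⟨(E d.V - y) * w * u, ?_, ?_, ?_, ?_⟩
      · calc ((E d.V - y) * w * u) ^ 2 = (E d.V - y) ^ 2 * w ^ 2 * u ^ 2 := by ring
          _ = (E d.V - y) * E d.l * (E d.V ^ 2 - y ^ 2) * u ^ 2 := by rw [hw2]; ring
          _ = (E d.V - y) * E d.m * (E d.l * E d.T * u) ^ 2 := by rw [hy2]; ring
          _ = _ := by rw [hu']; ring
      · calc w * ((E d.V - y) * w * u) = (E d.V - y) * w ^ 2 * u := by ring
          _ = E d.l * (E d.V ^ 2 - y ^ 2) * u := by rw [hw2]; ring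
          _ = E d.l * E d.m * E d.T * (E d.l * E d.T * u) := by rw [hy2]; ring
          _ = _ := by rw [hu', mul_one]
      · calc E d.l * E d.T * ((E d.V - y) * w * u) = (E d.V - y) * w * (E d.l * E d.T * u) := by ring
          _ = _ := by rw [hu', mul_one]
      · calc (E d.V + y) * ((E d.V - y) * w * u) = (E d.V ^ 2 - y ^ 2) * w * u := by ring
          _ = E d.m * E d.T * w * (E d.l * E d.T * u) := by rw [hy2]; ring
          _ = _ := by rw [hu', mul_one]
  let φ : BB d →+* Localization.Away g := BB.lift E y w z (by rw [← sq, hy2, hff])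
    (by rw [← sq, hw2]) (by rw [← sq, hz3]) (by rw [hz4, map_mul, map_mul])
    (by rw [map_mul]; linear_combination hz5) (by rw [map_mul]; linear_combination hz6)
  have hφ : ∀ x : BB d, φ x = E x.a + E x.b * y + E x.p * w + E x.q * z := fun x => rfl
  have hφof : ∀ r, φ (BB.of d r) = E r := by
    intro r
    rw [hφ]
    simp
  have hφv : φ (BB.v d) = y := by
    rw [hφ]
    simp [BB.v]
  have hφ0 : φ (BB.W0 d) = w := by
    rw [hφ]
    simp [BB.W0]
  have hφ1 : φ (BB.W1 d) = z := by
    rw [hφ]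
    simp [BB.W1]
  refine exists_equiv (psi d) g φ ?_ ?_
  · intro a
    have h1 : φ.comp (psi d) = j := by
      apply ringHom_ext_pl
      · intro r
        rw [RingHom.comp_apply, psi_mk, ev3_C, sc_apply, hφof]
        show j (mk d (pl (C r))) = j (mk d (MvPolynomial.C r))
        unfold pl
        rw [Polynomial.aeval_C]
        rfl
      · intro i
        rw [RingHom.comp_apply, psi_mk, ev3_X]
        fin_cases i
        · show φ (xx d) = _
          rw [xx, hφof]
          show j (mk d (pl X)) = j (mk d (MvPolynomial.X 0))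
          unfold pl
          rw [Polynomial.aeval_X]
        · exact hφv
        · exact hφ0
    exact congr($h1 a)
  · intro b θ hθ
    set k : BB d →+* Localization.Away (psi d g) := algebraMap (BB d) (Localization.Away (psi d g))
      with hk
    have hθE : ∀ r, θ (E r) = k (BB.of d r) := by
      intro r
      show θ (j (eQ d r)) = _
      rw [hθ, psi_eQ]
    have hθy : θ y = k (BB.v d) := by
      rw [hy, hθ, psi_mk, ev3_X]
      rfl
    have hθw : θ w = k (BB.W0 d) := by
      rw [hw, hθ, psi_mk, ev3_X]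
      rfl
    have hu2 : k (psi d g0) * θ u = 1 := by
      rw [← hθ, ← map_mul, hu, map_one]
    have hθz : θ z = k (BB.W1 d) := by
      rcases hg0 with h0 | h0
      · have h1 : psi d g0 = BB.of d d.V + BB.v d := by
          rw [h0, map_add, psi_eQ, psi_mk, ev3_X]
          rfl
        have h2 : k (psi d g0) * θ z = k (psi d g0) * k (BB.W1 d) := by
          have h3 := congrArg θ hz6
          rw [map_mul, map_add, hθE, hθy, map_mul, map_mul, hθE, hθE, hθw] at h3
          have h4 := congrArg k (BB.v_mul_W1 (d := d))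
          simp only [map_mul, map_sub] at h4
          rw [h1, map_add]
          linear_combination h3 - h4
        calc θ z = k (psi d g0) * θ z * θ u := by linear_combination (-θ z) * hu2
          _ = k (BB.W1 d) * (k (psi d g0) * θ u) := by rw [h2]; ring
          _ = _ := by rw [hu2, mul_one]
      · have h1 : psi d g0 = BB.of d (d.l * d.T) := by
          rw [h0, psi_eQ]
        have h2 : k (psi d g0) * θ z = k (psi d g0) * k (BB.W1 d) := by
          have h3 := congrArg θ hz5
          rw [map_mul, map_mul, map_mul, map_sub, hθE, hθE, hθE, hθy, hθw] at h3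
          have h4 := congrArg k (BB.v_mul_W0 (d := d))
          simp only [map_mul, map_sub] at h4
          rw [h1, map_mul (BB.of d), map_mul]
          linear_combination h3 - h4
        calc θ z = k (psi d g0) * θ z * θ u := by linear_combination (-θ z) * hu2
          _ = k (BB.W1 d) * (k (psi d g0) * θ u) := by rw [h2]; ring
          _ = _ := by rw [hu2, mul_one]
    have h5 : θ.comp φ = k := by
      apply BB.hom_ext
      · intro r
        rw [RingHom.comp_apply, hφof, hθE]
      · rw [RingHom.comp_apply, hφv, hθy]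
      · rw [RingHom.comp_apply, hφ0, hθw]
      · rw [RingHom.comp_apply, hφ1, hθz]
    exact congr($h5 b)

lemma psi_alg (r : R) : psi d (algebraMap R (QR d) r) = sc d r := by
  have h : algebraMap R (QR d) r = mk d (MvPolynomial.C r) := rfl
  rw [h, psi_mk, ev3_C]

/-- the criterion -/
lemma smooth_chart (g0 : QR d)
    (hg0 : g0 = eQ d d.V + mk d (MvPolynomial.X 1) ∨ g0 = eQ d (d.l * d.T)) (a b : Fin 3)
    (hab : a ≠ b) :
    ((algebraMap (BB d) (Localization.Away (psi d (g0 * mk d (minor d a b))))).comp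
      (sc d)).IsStandardSmoothOfRelativeDimension 1 := by
  obtain ⟨e, he⟩ := exists_phi d g0 hg0 (g0 * mk d (minor d a b)) (dvd_mul_right _ _)
  have h1 := smooth_Q d a b hab (g0 * mk d (minor d a b)) (dvd_mul_left _ _)
  have h2 := (RingHom.IsStandardSmoothOfRelativeDimension.equiv e).comp h1
  convert h2 using 1
  ext r
  rw [RingHom.comp_apply, RingHom.comp_apply, RingHom.comp_apply]
  show _ = e _
  rw [he, psi_alg]

end iso

section dom

variable {D : Type} [CommRing D] [IsDomain D]

/-- no common zeros of the minors -/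
lemma dom_minor (V v l m T w l' V' T' m' : D) (h2 : (2 : D) ≠ 0)
    (hv : v ^ 2 = V ^ 2 - l * m * T ^ 2) (hw : w ^ 2 = l * (V + v))
    (cf : ∃ a b, a * (V ^ 2 - l * m * T ^ 2) +
      b * (2 * V * V' - (l' * m * T ^ 2 + l * m' * T ^ 2 + 2 * l * m * T * T')) = 1)
    (cl : ∃ a b, a * l + b * l' = 1) (cm : ∃ a b, a * m + b * m' = 1)
    (h0 : V + v ≠ 0 ∨ l * T ≠ 0) (h4 : 4 * v * w = 0)
    (h5 : (2 * V * V' - (l' * m * T ^ 2 + l * m' * T ^ 2 + 2 * l * m * T * T')) * w = 0)
    (h6 : (2 * V * V' - (l' * m * T ^ 2 + l * m' * T ^ 2 + 2 * l * m * T * T')) * l +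
      2 * v * (l' * (V + v) + l * V') = 0) : False := by
  obtain ⟨a, b, hab⟩ := cf
  obtain ⟨a1, b1, hab1⟩ := cl
  obtain ⟨a2, b2, hab2⟩ := cm
  by_cases hw0 : w = 0
  · -- `w = 0`
    have h7 : l * (V + v) = 0 := by rw [← hw, hw0]; ring
    by_cases hVv : V + v = 0
    · have hlT : l * T ≠ 0 := h0.resolve_left (fun h => h hVv)
      have hl : l ≠ 0 := left_ne_zero_of_mul hlT
      have hT : T ≠ 0 := right_ne_zero_of_mul hlT
      have hvV : v = -V := by linear_combination hVv
      have hm : m = 0 := by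
        have h8 : l * m * T ^ 2 = 0 := by rw [hvV] at hv; linear_combination hv
        have h9 := (mul_eq_zero.1 h8).resolve_right (pow_ne_zero 2 hT)
        exact (mul_eq_zero.1 h9).resolve_left hl
      rw [hvV, hm] at h6
      have h10 : l ^ 2 * T ^ 2 * m' = 0 := by linear_combination -h6
      have hm' : m' = 0 :=
        (mul_eq_zero.1 h10).resolve_left (mul_ne_zero (pow_ne_zero 2 hl) (pow_ne_zero 2 hT))
      rw [hm, hm'] at hab2
      simp at hab2
    · have hl : l = 0 := (mul_eq_zero.1 h7).resolve_right hVv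
      rw [hl] at h6
      have h8 : 2 * (V + v) * (v * l') = 0 := by linear_combination h6
      have h9 := (mul_eq_zero.1 h8).resolve_left (mul_ne_zero h2 hVv)
      rcases mul_eq_zero.1 h9 with hv0 | hl'
      · apply hVv
        have h10 : V ^ 2 = 0 := by rw [hl, hv0] at hv; linear_combination -hv
        rw [hv0, pow_eq_zero_iff (two_ne_zero) |>.1 h10, add_zero]
      · rw [hl, hl'] at hab1
        simp at hab1
  · have h7 := (mul_eq_zero.1 h5).resolve_right hw0
    have h8 : v = 0 := by
      have h9 := (mul_eq_zero.1 h4).resolve_right hw0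
      have h10 : (2 : D) * 2 * v = 0 := by linear_combination h9
      exact (mul_eq_zero.1 h10).resolve_left (mul_ne_zero h2 h2)
    rw [h7, ← hv, h8] at hab
    simp at hab

/-- the four charts cover -/
lemma dom_cover (V v l m T l' V' T' m' : D) (h2 : (2 : D) ≠ 0)
    (hv : v ^ 2 = V ^ 2 - l * m * T ^ 2)
    (cf : ∃ a b, a * (V ^ 2 - l * m * T ^ 2) +
      b * (2 * V * V' - (l' * m * T ^ 2 + l * m' * T ^ 2 + 2 * l * m * T * T')) = 1)
    (h3 : V + v = 0) (h4 : V - v = 0) (h5 : l * T = 0) (h6 : m * T = 0) : False := by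
  obtain ⟨a, b, hab⟩ := cf
  have hV : V = 0 := by
    have : 2 * V = 0 := by linear_combination h3 + h4
    exact (mul_eq_zero.1 this).resolve_left h2
  have hv0 : v = 0 := by rw [hV] at h3; simpa using h3
  have h7 : (0 : D) = 1 := by
    rw [← hab, ← hv, hv0, hV]
    linear_combination (b * l' * T) * h6 + (b * m' * T + 2 * b * m * T') * h5
  exact zero_ne_one h7

end dom

section main

variable {R : Type} [CommRing R]

lemma deriv_f (d : Dat R[X]) : derivative d.f = 2 * d.V * derivative d.V -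
    (derivative d.l * d.m * d.T ^ 2 + d.l * derivative d.m * d.T ^ 2 +
      2 * d.l * d.m * d.T * derivative d.T) := by
  unfold Dat.f
  simp only [derivative_sub, derivative_mul, derivative_pow, Nat.cast_ofNat, C_ofNat]
  ring

lemma pd0 (d : Dat R[X]) : MvPolynomial.pderiv 0 (rel d 0) = -pl (derivative d.f) := by
  show MvPolynomial.pderiv 0 (MvPolynomial.X 1 ^ 2 - pl d.f) = _
  rw [map_sub, pderiv_pl, Derivation.leibniz_pow, MvPolynomial.pderiv_X]
  simp

lemma pd1 (d : Dat R[X]) : MvPolynomial.pderiv 1 (rel d 0) = 2 * MvPolynomial.X 1 := by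
  show MvPolynomial.pderiv 1 (MvPolynomial.X 1 ^ 2 - pl d.f) = _
  rw [map_sub, pderiv_pl, Derivation.leibniz_pow, MvPolynomial.pderiv_X]
  simp

lemma pd2 (d : Dat R[X]) : MvPolynomial.pderiv 2 (rel d 0) = 0 := by
  show MvPolynomial.pderiv 2 (MvPolynomial.X 1 ^ 2 - pl d.f) = _
  rw [map_sub, pderiv_pl, Derivation.leibniz_pow, MvPolynomial.pderiv_X]
  simp

lemma qd0 (d : Dat R[X]) : MvPolynomial.pderiv 0 (rel d 1) =
    -(pl (derivative d.l) * (pl d.V + MvPolynomial.X 1) + pl d.l * pl (derivative d.V)) := by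
  show MvPolynomial.pderiv 0 (MvPolynomial.X 2 ^ 2 - pl d.l * (pl d.V + MvPolynomial.X 1)) = _
  rw [map_sub, Derivation.leibniz, map_add, pderiv_pl, pderiv_pl, Derivation.leibniz_pow,
    MvPolynomial.pderiv_X, MvPolynomial.pderiv_X]
  simp
  ring

lemma qd1 (d : Dat R[X]) : MvPolynomial.pderiv 1 (rel d 1) = -pl d.l := by
  show MvPolynomial.pderiv 1 (MvPolynomial.X 2 ^ 2 - pl d.l * (pl d.V + MvPolynomial.X 1)) = _
  rw [map_sub, Derivation.leibniz, map_add, pderiv_pl, pderiv_pl, Derivation.leibniz_pow,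
    MvPolynomial.pderiv_X, MvPolynomial.pderiv_X]
  simp

lemma qd2 (d : Dat R[X]) : MvPolynomial.pderiv 2 (rel d 1) = 2 * MvPolynomial.X 2 := by
  show MvPolynomial.pderiv 2 (MvPolynomial.X 2 ^ 2 - pl d.l * (pl d.V + MvPolynomial.X 1)) = _
  rw [map_sub, Derivation.leibniz, map_add, pderiv_pl, pderiv_pl, Derivation.leibniz_pow,
    MvPolynomial.pderiv_X, MvPolynomial.pderiv_X]
  simp

lemma minor12 (d : Dat R[X]) : ev3 d (minor d 1 2) = 4 * BB.v d * BB.W0 d := by
  unfold minor
  rw [pd1, pd2, qd1, qd2, map_sub, map_mul, map_mul, map_mul, map_mul, map_zero, ev3_X, ev3_X,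
    map_ofNat]
  show 2 * BB.v d * (2 * BB.W0 d) - _ = _
  ring

lemma minor02 (d : Dat R[X]) : ev3 d (minor d 0 2) =
    -2 * (BB.of d (derivative d.f) * BB.W0 d) := by
  unfold minor
  rw [pd0, pd2, qd0, qd2, map_sub, map_mul, map_mul, map_mul, map_zero, map_neg, ev3_X, ev3_pl,
    map_ofNat]
  show -BB.of d (derivative d.f) * (2 * BB.W0 d) - _ = _
  ring

lemma minor01 (d : Dat R[X]) : ev3 d (minor d 0 1) =
    BB.of d (derivative d.f) * BB.of d d.l + 2 * BB.v d * (BB.of d (derivative d.l) *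
      (BB.of d d.V + BB.v d) + BB.of d d.l * BB.of d (derivative d.V)) := by
  unfold minor
  rw [pd0, pd1, qd0, qd1]
  simp only [map_sub, map_mul, map_neg, map_add, ev3_X, ev3_pl, map_ofNat]
  show -BB.of d (derivative d.f) * (-BB.of d d.l) -
    -(BB.of d (derivative d.l) * (BB.of d d.V + BB.v d) + BB.of d d.l * BB.of d (derivative d.V)) *
      (2 * BB.v d) = _
  ring

lemma two_ne (d : Dat R[X]) (h2 : IsUnit (2 : R)) (P : Ideal (BB d)) [P.IsPrime] :
    (2 : BB d ⧸ P) ≠ 0 := by
  have h1 : IsUnit ((Ideal.Quotient.mk P).comp (sc d) 2) := h2.map _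
  rw [map_ofNat] at h1
  exact h1.ne_zero

lemma coprime_map {A B : Type} [CommRing A] [CommRing B] (φ : A →+* B) {x y : A}
    (h : IsCoprime x y) : ∃ a b, a * φ x + b * φ y = 1 := by
  obtain ⟨a, b, hab⟩ := h
  exact ⟨φ a, φ b, by rw [← map_mul, ← map_mul, ← map_add, hab, map_one]⟩

lemma exists_minor (d : Dat R[X]) (h2 : IsUnit (2 : R)) (hg : Good d) (P : Ideal (BB d))
    [P.IsPrime] (h0 : BB.of d d.V + BB.v d ∉ P ∨ BB.of d (d.l * d.T) ∉ P) :
    ∃ a b : Fin 3, a ≠ b ∧ ev3 d (minor d a b) ∉ P := by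
  by_contra hcon
  push Not at hcon
  have e1 := hcon 1 2 (by decide)
  have e2 := hcon 0 2 (by decide)
  have e3 := hcon 0 1 (by decide)
  set κ : BB d →+* BB d ⧸ P := Ideal.Quotient.mk P with hκ
  have hk : ∀ x, x ∈ P ↔ κ x = 0 := fun x => Ideal.Quotient.eq_zero_iff_mem.symm
  set o : R[X] →+* BB d ⧸ P := κ.comp (BB.of d) with ho
  have ho' : ∀ r, κ (BB.of d r) = o r := fun r => rfl
  have hof : o d.f = o d.V ^ 2 - o d.l * o d.m * o d.T ^ 2 := by
    unfold Dat.f
    rw [map_sub, map_mul, map_mul, map_pow, map_pow]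
  have hodf : o (derivative d.f) = 2 * o d.V * o (derivative d.V) -
      (o (derivative d.l) * o d.m * o d.T ^ 2 + o d.l * o (derivative d.m) * o d.T ^ 2 +
        2 * o d.l * o d.m * o d.T * o (derivative d.T)) := by
    rw [deriv_f]
    simp only [map_sub, map_mul, map_add, map_pow, map_ofNat]
  rw [minor12, hk] at e1
  rw [minor02, hk] at e2
  rw [minor01, hk] at e3
  simp only [map_mul, map_add, map_neg, map_ofNat, ho'] at e1 e2 e3
  have hv2 : κ (BB.v d) ^ 2 = o d.V ^ 2 - o d.l * o d.m * o d.T ^ 2 := by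
    rw [← hof, ← map_pow, sq, BB.v_mul_v]
    rfl
  have hw2 : κ (BB.W0 d) ^ 2 = o d.l * (o d.V + κ (BB.v d)) := by
    rw [← map_pow, sq, BB.W0_mul_W0, map_mul, map_add]
    rfl
  have hcf := coprime_map o hg.1
  rw [hof, hodf] at hcf
  rw [hodf] at e2 e3
  have h2' := two_ne d h2 P
  refine dom_minor _ _ _ _ _ _ _ _ _ _ h2' hv2 hw2 hcf (coprime_map o hg.2.1)
    (coprime_map o hg.2.2) ?_ e1 ?_ e3
  · rcases h0 with h | h
    · left
      rw [hk, map_add] at h
      exact h
    · right
      rw [hk, ho', map_mul] at h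
      exact h
  · exact (mul_eq_zero.1 e2).resolve_left (neg_ne_zero.2 h2')

/-- half of the points -/
lemma half (d : Dat R[X]) (h2 : IsUnit (2 : R)) (hg : Good d) (p : PrimeSpectrum (BB d))
    (h0 : BB.of d d.V + BB.v d ∉ p.asIdeal ∨ BB.of d (d.l * d.T) ∉ p.asIdeal) :
    ∃ g : BB d, g ∉ p.asIdeal ∧ ((algebraMap (BB d) (Localization.Away g)).comp
      (sc d)).IsStandardSmoothOfRelativeDimension 1 := by
  obtain ⟨a, b, hab, hm⟩ := exists_minor d h2 hg p.asIdeal h0
  have key : ∀ g0 : QR d, (g0 = eQ d d.V + mk d (MvPolynomial.X 1) ∨ g0 = eQ d (d.l * d.T)) →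
      psi d g0 ∉ p.asIdeal → ∃ g : BB d, g ∉ p.asIdeal ∧
        ((algebraMap (BB d) (Localization.Away g)).comp
          (sc d)).IsStandardSmoothOfRelativeDimension 1 := by
    intro g0 hg0 hp
    refine ⟨psi d (g0 * mk d (minor d a b)), ?_, smooth_chart d g0 hg0 a b hab⟩
    rw [map_mul]
    intro h
    rcases p.2.mem_or_mem h with h | h
    · exact hp h
    · exact hm h
  rcases h0 with h | h
  · refine key _ (Or.inl rfl) ?_
    rw [map_add, psi_eQ, psi_mk, ev3_X]
    exact h
  · refine key _ (Or.inr rfl) ?_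
    rw [psi_eQ]
    exact h

/-- exchange of `l` and `m` -/
def swp {A : Type} (d : Dat A) : Dat A := ⟨d.m, d.l, d.V, d.T⟩

/-- exchange of `W0` and `W1` -/
noncomputable def swE {A : Type} [CommRing A] (d : Dat A) : BB (swp d) ≃+* BB d where
  toFun x := ⟨x.a, -x.b, x.q, x.p⟩
  invFun x := ⟨x.a, -x.b, x.q, x.p⟩
  left_inv x := by apply BB.ext <;> simp
  right_inv x := by apply BB.ext <;> simp
  map_add' x y := by
    apply BB.ext <;> simp
    ring
  map_mul' x y := by
    have hl : (swp d).l = d.m := rfl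
    have hm : (swp d).m = d.l := rfl
    have hV : (swp d).V = d.V := rfl
    have hT : (swp d).T = d.T := rfl
    apply BB.ext
    · show (x * y).a = ((⟨x.a, -x.b, x.q, x.p⟩ : BB d) * ⟨y.a, -y.b, y.q, y.p⟩).a
      rw [BB.mul_a, BB.mul_a]
      simp only [Dat.f, hl, hm, hV, hT]
      ring
    · show -(x * y).b = ((⟨x.a, -x.b, x.q, x.p⟩ : BB d) * ⟨y.a, -y.b, y.q, y.p⟩).b
      rw [BB.mul_b, BB.mul_b]
      simp only [hl, hm]
      ring
    · show (x * y).q = ((⟨x.a, -x.b, x.q, x.p⟩ : BB d) * ⟨y.a, -y.b, y.q, y.p⟩).p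
      rw [BB.mul_q, BB.mul_p]
      simp only [hl, hV, hT]
      ring
    · show (x * y).p = ((⟨x.a, -x.b, x.q, x.p⟩ : BB d) * ⟨y.a, -y.b, y.q, y.p⟩).q
      rw [BB.mul_p, BB.mul_q]
      simp only [hm, hV, hT]
      ring

lemma swE_of (d : Dat R[X]) (r : R[X]) : swE d (BB.of (swp d) r) = BB.of d r := by
  ext <;> simp [swE]

lemma swE_v (d : Dat R[X]) : swE d (BB.v (swp d)) = -BB.v d := by
  ext <;> simp [swE, BB.v]

lemma good_swp {d : Dat R[X]} (h : Good d) : Good (swp d) := by
  have h1 : (swp d).f = d.f := by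
    unfold Dat.f swp
    ring
  refine ⟨?_, h.2.2, h.2.1⟩
  rw [h1]
  exact h.1

lemma cover (d : Dat R[X]) (h2 : IsUnit (2 : R)) (hg : Good d) (P : Ideal (BB d)) [P.IsPrime]
    (h3 : BB.of d d.V + BB.v d ∈ P) (h4 : BB.of d d.V - BB.v d ∈ P)
    (h5 : BB.of d (d.l * d.T) ∈ P) (h6 : BB.of d (d.m * d.T) ∈ P) : False := by
  set κ : BB d →+* BB d ⧸ P := Ideal.Quotient.mk P with hκ
  have hk : ∀ x, x ∈ P ↔ κ x = 0 := fun x => Ideal.Quotient.eq_zero_iff_mem.symm
  set o : R[X] →+* BB d ⧸ P := κ.comp (BB.of d) with ho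
  have ho' : ∀ r, κ (BB.of d r) = o r := fun r => rfl
  have hof : o d.f = o d.V ^ 2 - o d.l * o d.m * o d.T ^ 2 := by
    unfold Dat.f
    rw [map_sub, map_mul, map_mul, map_pow, map_pow]
  have hodf : o (derivative d.f) = 2 * o d.V * o (derivative d.V) -
      (o (derivative d.l) * o d.m * o d.T ^ 2 + o d.l * o (derivative d.m) * o d.T ^ 2 +
        2 * o d.l * o d.m * o d.T * o (derivative d.T)) := by
    rw [deriv_f]
    simp only [map_sub, map_mul, map_add, map_pow, map_ofNat]
  have hv2 : κ (BB.v d) ^ 2 = o d.V ^ 2 - o d.l * o d.m * o d.T ^ 2 := by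
    rw [← hof, ← map_pow, sq, BB.v_mul_v]
    rfl
  have hcf := coprime_map o hg.1
  rw [hof, hodf] at hcf
  rw [hk] at h3 h4 h5 h6
  rw [map_add, ho'] at h3
  rw [map_sub, ho'] at h4
  rw [ho', map_mul] at h5 h6
  exact dom_cover _ _ _ _ _ _ _ _ _ (two_ne d h2 P) hv2 hcf h3 h4 h5 h6

/-- **SR** -/
theorem smooth_ring : S_smooth_ring := by
  intro R _ _ d h2 hg p
  by_cases h0 : BB.of d d.V + BB.v d ∉ p.asIdeal ∨ BB.of d (d.l * d.T) ∉ p.asIdeal
  · exact half d h2 hg p h0
  · push Not at h0
    have h1 : BB.of d d.V - BB.v d ∉ p.asIdeal ∨ BB.of d (d.m * d.T) ∉ p.asIdeal := by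
      by_contra hcon
      push Not at hcon
      exact cover d h2 hg p.asIdeal h0.1 hcon.1 h0.2 hcon.2
    let p' : PrimeSpectrum (BB (swp d)) := PrimeSpectrum.comap (swE d).toRingHom p
    have hp' : ∀ x, x ∈ p'.asIdeal ↔ swE d x ∈ p.asIdeal := fun x => Iff.rfl
    obtain ⟨g', hg', hs⟩ := half (swp d) h2 (good_swp hg) p' (by
      rw [hp', hp', map_add, swE_of, swE_of, swE_v, ← sub_eq_add_neg]
      exact h1)
    refine ⟨swE d g', fun h => hg' h, ?_⟩
    let e' : Localization.Away g' ≃+* Localization.Away (swE d g') :=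
      IsLocalization.ringEquivOfRingEquiv (M := .powers g') (T := .powers (swE d g')) _ _ (swE d) (by
        rw [Submonoid.map_powers]; rfl)
    have h3 := (RingHom.IsStandardSmoothOfRelativeDimension.equiv e').comp hs
    convert h3 using 1
    ext r
    rw [RingHom.comp_apply, RingHom.comp_apply, RingHom.comp_apply]
    show _ = e' _
    have h4 : e' (algebraMap (BB (swp d)) (Localization.Away g') (sc (swp d) r)) =
        algebraMap (BB d) (Localization.Away (swE d g')) (swE d (sc (swp d) r)) :=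
      IsLocalization.ringEquivOfRingEquiv_eq _ _
    rw [h4, sc_apply, sc_apply, swE_of]

end main

end Pool.Agent.H154.MG927
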